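import Pool.Agent.L5helper15.KD.Ad
import Pool.Agent.Y742.GG.Fg

/-!
# K3 surfaces: real components in the adelic closure of the rational points

`K` is a finitely generated field of characteristic zero, for example a number field, and
`X : w² = f(x₁, …, x_n)`, where `f` has degree at most `4` in each variable: for `n = 2` an affine
open subset of a double cover of `ℙ¹ × ℙ¹`, a K3 surface if the branch curve is smooth. Through each
point `T = (x, w)` of `X` there are `n` curves `w² = q(t)`, in the directions of the coordinates. Let
`X(K)⁰` be the set of the `K`-points with `w ≠ 0` for which these `n` curves are smooth of genus one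
and the differences of the two points `(x, w)` and `(x, -w)` have infinite order in the Jacobians.

We consider a real embedding of `K` and an arbitrary family of embeddings of `K` into nonarchimedean
local fields `L_v`, for example all the finite places of a number field at the same time. The
elements of the Brauer group are constant on the components of the real points, so the question
predicts that the closure of the rational points is invariant under moving the real point in its
component, while all the other local points are fixed. We show this for the closure of `X(K)⁰`, for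
all its points `(x, (y_v))` such that `x` is a smooth real point. There is no condition on the `y_v`
and on the position of `x` with respect to the branch locus and the singular fibres.

Without nonarchimedean places: the closure of `X(K)⁰` in the smooth real points is a union of
connected components.

The definitions `OnCover`, `image`, `Moves` are those of `OpenAwayFromTorsion`.
-/

set_option autoImplicit false
set_option linter.unusedSectionVars false
set_option linter.unusedVariables false

namespace Pool.Agent.Results.MP_ed3816_nt.AdelicRealComponents

open MvPolynomial Pool.Agent.Results.MP_ed3816_nt.OpenAwayFromTorsion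

/-- The set `X(K)⁰` of the `K`-points `P = (x, w)` of `w² = f(x)` with `w ≠ 0` such that for all
directions the curve through `P` is smooth of genus one and the difference of `(x, w)` and `(x, -w)`
has infinite order in its Jacobian. -/
def FreePoints {K : Type} [Field K] {m : ℕ} (f : MvPolynomial (Fin m) K) :
    Set ((Fin m → K) × K) :=
  {P | OnCover f P ∧ P.2 ≠ 0 ∧ ∀ j, Moves f P j}

/-- The closure of `X(K)⁰` in the product of the set of the real points and of the sets of the
`L v`-points, with the product topology. -/
def AdelicClosure {K : Type} [Field K] {m : ℕ} (f : MvPolynomial (Fin m) K) {ι : Type}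
    {L : ι → Type} [∀ v, NontriviallyNormedField (L v)] (σ : ∀ v, K →+* L v) (τ : K →+* ℝ) :
    Set (((Fin m → ℝ) × ℝ) × ∀ v, (Fin m → L v) × L v) :=
  closure {S | ∃ P ∈ FreePoints f, S = (image τ P, fun v => image (σ v) P)}

/-- The smooth points of the double cover `w² = g(x)`. -/
def SmoothPoints {F : Type} [Field F] {m : ℕ} (g : MvPolynomial (Fin m) F) :
    Set ((Fin m → F) × F) :=
  {T | OnCover g T ∧ (T.2 ≠ 0 ∨ ∃ j, eval T.1 (pderiv j g) ≠ 0)}

/-- The component of `x` of the smooth real points. -/
def Component {m : ℕ} (g : MvPolynomial (Fin m) ℝ) (x : (Fin m → ℝ) × ℝ) :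
    Set ((Fin m → ℝ) × ℝ) :=
  connectedComponentIn (SmoothPoints g) x

/-- **The adelic closure of `X(K)⁰` contains whole real components.** -/
theorem result (K : Type) [Field K] [CharZero K]
    -- `K` is finitely generated
    (hK : ∃ S : Finset K, IntermediateField.adjoin ℚ (S : Set K) = ⊤)
    (n : ℕ) (f : MvPolynomial (Fin n) K)
    -- the degree in each variable is at most four
    (hd : ∀ j, f.degreeOf j ≤ 4)
    -- a real embedding, and embeddings into any number of nonarchimedean local fields
    (τ : K →+* ℝ) (ι : Type) (L : ι → Type) [∀ v, NontriviallyNormedField (L v)]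
    [∀ v, IsUltrametricDist (L v)] [∀ v, ProperSpace (L v)] (σ : ∀ v, K →+* L v) :
    -- (1) the closure contains `C × {y}`, `C` the component of `x`, for all its points `(x, y)`
    -- with a smooth real point `x`
    (∀ (x : (Fin n → ℝ) × ℝ) (y : ∀ v, (Fin n → L v) × L v),
      (x, y) ∈ AdelicClosure f σ τ → x ∈ SmoothPoints (map τ f) →
      ∀ x' ∈ Component (map τ f) x, (x', y) ∈ AdelicClosure f σ τ) ∧
    -- (2) the real points: the closure of `X(K)⁰` contains all the components of the smooth real
    -- points which it meets
    (∀ x ∈ closure (image τ '' FreePoints f), x ∈ SmoothPoints (map τ f) →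
      Component (map τ f) x ⊆ closure (image τ '' FreePoints f)) := by
  obtain ⟨q, hq, ⟨σ₀⟩⟩ := Pool.Agent.Y742.GG.exists_emb_fg K hK
  have key : ∀ (ι : Type) (L : ι → Type) [∀ v, NontriviallyNormedField (L v)]
      [∀ v, IsUltrametricDist (L v)] [∀ v, ProperSpace (L v)] (σ : ∀ v, K →+* L v)
      (x : (Fin n → ℝ) × ℝ) (y : ∀ v, (Fin n → L v) × L v),
      (x, y) ∈ AdelicClosure f σ τ → x ∈ SmoothPoints (map τ f) →
      ∀ x' ∈ Component (map τ f) x, (x', y) ∈ AdelicClosure f σ τ := by
    intro ι L _ _ _ σ x y h hs x' hx'
    exact Pool.Agent.L5helper15.KD.comp_ad hd σ₀ h hs hx'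
  refine ⟨key ι L σ, fun x hx hs x' hx' => ?_⟩
  have h1 := key Empty (fun _ => ℚ_[q]) (fun e => e.elim) x (fun e => e.elim) ?_ hs x' hx'
  · rw [AdelicClosure, mem_closure_iff_nhds] at h1
    rw [mem_closure_iff_nhds]
    intro U hU
    obtain ⟨_, h2, P, hP, rfl⟩ := h1 (U ×ˢ Set.univ) (prod_mem_nhds hU Filter.univ_mem)
    exact ⟨image τ P, h2.1, P, hP, rfl⟩
  · rw [AdelicClosure, mem_closure_iff_nhds]
    rw [mem_closure_iff_nhds] at hx
    intro U hU
    rw [nhds_prod_eq, Filter.mem_prod_iff] at hU
    obtain ⟨U₁, hU₁, U₂, hU₂, hU⟩ := hU
    obtain ⟨_, h2, P, hP, rfl⟩ := hx U₁ hU₁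
    refine ⟨(image τ P, fun e => e.elim), hU ⟨h2, ?_⟩, P, hP, ?_⟩
    · have := mem_of_mem_nhds hU₂
      rwa [show (fun e : Empty => (e.elim : (Fin n → ℚ_[q]) × ℚ_[q])) =
        (fun e : Empty => e.elim) from rfl] at this
    · congr 1
      funext e
      exact e.elim

end Pool.Agent.Results.MP_ed3816_nt.AdelicRealComponents
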