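import Pool.Agent.L5helper15.KD.Comp

/-!
# K3 surfaces: the closure of the rational points contains whole real components

`K` is a field of characteristic zero, for example a number field, and `X : w² = f(x₁, …, x_n)`,
where `f` has degree at most `4` in each variable: for `n = 2` an affine open subset of a double
cover of `ℙ¹ × ℙ¹`, a K3 surface if the branch curve is smooth. Through each point `T` of `X` there
are `n` curves `w² = q(t)`, in the directions of the coordinates.

We consider a real place and a finite set of `p`-adic places of degree one. The Brauer-Manin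
obstruction does not change if the real point moves in its connected component. The closure of the
rational points has the same property: if `(x, y)` belongs to the closure of `X(K)` in the product
of `X(ℝ)` and the `X(K_v)`, and `x` is a smooth point, then all `(x', y)`, `x'` in the component of
`x` of the smooth real points, belong to the closure, if for each direction `j` there is a `p`-adic
place `v` such that the curve in the direction `j` through `y_v` is smooth of genus one and the
difference of `y_v = (z, w)` and `(z, -w)` has infinite order in its Jacobian. There is no condition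
at the real place.

The definitions are those of `OpenAwayFromTorsion`.
-/

set_option autoImplicit false
set_option linter.unusedSectionVars false
set_option linter.unusedVariables false

namespace Pool.Agent.Results.MP_ed3816_nt.RealComponentsOfDoubleCovers

open MvPolynomial Pool.Agent.Results.MP_ed3816_nt.OpenAwayFromTorsion

/-- The smooth points of the double cover `w² = g(x)`. -/
def SmoothPoints {F : Type} [Field F] {m : ℕ} (g : MvPolynomial (Fin m) F) :
    Set ((Fin m → F) × F) :=
  {T | OnCover g T ∧ (T.2 ≠ 0 ∨ ∃ j, eval T.1 (pderiv j g) ≠ 0)}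

/-- The component of `x` of the smooth real points. -/
def Component {m : ℕ} (g : MvPolynomial (Fin m) ℝ) (x : (Fin m → ℝ) × ℝ) :
    Set ((Fin m → ℝ) × ℝ) :=
  connectedComponentIn (SmoothPoints g) x

/-- **The closure of the rational points contains whole real components.** -/
theorem result (K : Type) [Field K] [CharZero K] (n : ℕ) (f : MvPolynomial (Fin n) K)
    -- the degree in each variable is at most four
    (hd : ∀ j, f.degreeOf j ≤ 4)
    -- a finite set of `p`-adic places and a real place
    (ι : Type) [Finite ι] (p : ι → ℕ) [∀ v, Fact (p v).Prime] (σ : ∀ v, K →+* ℚ_[p v])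
    (τ : K →+* ℝ) (x : (Fin n → ℝ) × ℝ) (y : ∀ v, (Fin n → ℚ_[p v]) × ℚ_[p v])
    -- a point of the closure of the rational points, whose real point is smooth
    (hT : (x, y) ∈ ClosureReal f σ τ) (hs : x ∈ SmoothPoints (map τ f))
    -- for each direction there is a place where the difference has infinite order
    (hm : ∀ j, ∃ v, (y v).2 ≠ 0 ∧ Moves (map (σ v) f) (y v) j) :
    -- (1) the closure contains the whole component
    (∀ x' ∈ Component (map τ f) x, (x', y) ∈ ClosureReal f σ τ) ∧
    -- (2) and its product with a neighbourhood of `y`, if the condition of `OpenAwayFromTorsion`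
    -- holds at `(x₁, y)` for some point `x₁` of the component
    (Nonempty ι → Function.Injective p → (∀ v, (y v).2 ≠ 0) →
      ∀ x₁ ∈ Component (map τ f) x, x₁.2 ≠ 0 →
        (∀ j, ∃ i, (GenusOne (line (map τ f) x₁.1 i) ∧ Serves (map τ f) x₁.1 i j) ∧
          ∀ v, Moves (map (σ v) f) (y v) i ∧ Serves (map (σ v) f) (y v).1 i j) →
        ∃ U ∈ nhds y, ∀ x' ∈ Component (map τ f) x, ∀ y' ∈ U,
          (∀ v, OnCover (map (σ v) f) (y' v)) → (x', y') ∈ ClosureReal f σ τ) := by
  have hon := (on_of_closureR hT).2
  have hI : ∀ j, Pool.Agent.L5helper15.KD.Inf f σ y j := fun j => by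
    obtain ⟨v, h1, h2⟩ := hm j
    exact Pool.Agent.L5helper15.KD.inf_of (hon v) h1 h2
  have h1 : ∀ x' ∈ Component (map τ f) x, (x', y) ∈ ClosureReal f σ τ := fun x' hx' =>
    Pool.Agent.L5helper15.KD.comp hd hI hT hs hx'
  refine ⟨h1, fun hne hinj hy x₁ hx₁ hw hc => ?_⟩
  have hs₁ : x₁ ∈ SmoothPoints (map τ f) := connectedComponentIn_subset _ _ hx₁
  have hx₁' : connectedComponentIn (SmoothPoints (map τ f)) x =
      connectedComponentIn (SmoothPoints (map τ f)) x₁ := connectedComponentIn_eq hx₁
  have hop := ((OpenAwayFromTorsion.result.1 K n f hd ι p hinj σ).2 τ (x₁, y) (h1 x₁ hx₁) hw hy hc)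
  obtain ⟨W, hW, hWb⟩ := hop
  have : Fintype ι := Fintype.ofFinite ι
  choose ρ hρ hρb using fun j => (hI j).nhd
  obtain ⟨ρ', hρ', hle⟩ := Pool.Agent.Y720.MZ.fin_min hρ
  have hU1 : {y' : ∀ v, (Fin n → ℚ_[p v]) × ℚ_[p v] | (x₁, y') ∈ W} ∈ nhds y :=
    (by fun_prop : Continuous fun y' : ∀ v, (Fin n → ℚ_[p v]) × ℚ_[p v] => (x₁, y')).continuousAt hW
  refine ⟨{y' | (x₁, y') ∈ W} ∩ Metric.ball y ρ',
    Filter.inter_mem hU1 (Metric.ball_mem_nhds y hρ'), fun x' hx' y' hy' hon' => ?_⟩
  have hcl : (x₁, y') ∈ ClosureReal f σ τ := hWb (x₁, y') hy'.1 hs₁.1 hon'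
  have hy2 := hy'.2
  rw [Metric.mem_ball, dist_pi_lt_iff hρ'] at hy2
  refine Pool.Agent.L5helper15.KD.comp hd (fun j => hρb j y' fun i => ?_) hcl hs₁
    (z' := x') ?_
  · have h3 := hy2 i
    rw [Prod.dist_eq, max_lt_iff, dist_pi_lt_iff hρ'] at h3
    simp only [dist_eq_norm] at h3
    exact ⟨fun k => (h3.1 k).trans_le (hle j), h3.2.trans_le (hle j)⟩
  · have : x' ∈ connectedComponentIn (SmoothPoints (map τ f)) x := hx'
    rw [hx₁'] at this
    exact this

end Pool.Agent.Results.MP_ed3816_nt.RealComponentsOfDoubleCovers
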