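import Pool.Agent.L5helper6.KM.Line
import Pool.Agent.Results.MP_ed3816_nt.RealComponentsOfDoubleCovers

/-!
# K3 surfaces with a marked rational point: weak approximation near the point for 100% of them

`X : w² = F(x₁, …, x_n)`, where `F` has integral coefficients and degree at most `4` in each variable:
for `n = 2` an affine open subset of a double cover of `ℙ¹ × ℙ¹`, a K3 surface if the branch curve is
smooth. If `F(0) = w²` is a nonzero square, then `P = (0, w)` is a rational point, not on the branch
divisor. For K3 surfaces Q1 predicts: for every number field `L` and finite set of places of `L` the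
closure of `X(L)` contains the product of the component of `P` of the real points and of a
neighbourhood of `P` in the product of the `p`-adic points, since the Brauer group is finite modulo
constants. We show this for 100% of all `F`, for all number fields `L` at the same time, and for all
finite sets which consist of a real place and of places of degree one over different primes; for
`L = ℚ` these are all the finite sets of places which contain the real place and a prime.

(1) For a given `w ≠ 0` the polynomials are `F = w² + g + ∑ c_a x^a`, where `g` is an arbitrary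
polynomial with `g(0) = 0`, `a` runs over an arbitrary set `A` of nonzero exponents which contains
the exponents of the monomials `x_j³` and `x_j⁴`, and the `c_a` are integers, `|c_a| ≤ H`. The
proportion of the exceptions tends to `0` for `H → ∞`, uniformly in `g` and `A`.

(2) The same on average over `1 ≤ w ≤ W`, uniformly in `W`: so it holds for 100% of all `F` with
coefficients at most `H` such that `F(0)` is a nonzero square (take `g = 0`, all nonzero exponents,
and `W = √H`).

Idea of the proof. On the curve `w² = q(t)` through `P` in the direction `j` the difference of `(0, w)`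
and `(0, -w)` has infinite order if there is a prime `p ≥ 3`, prime to `w`, which divides the
numerator of its ordinate exactly once but not the numerator of the derivative of the cubic resolvent:
then its double is a nonzero point `p`-adically close to the origin. For given coefficients of the
other monomials these are independent events for the coefficients of `x_j³` and `x_j⁴`, of probability
about `1/p`, and the sum of the reciprocals of the primes diverges. The rest is a starting criterion
(`OpenAwayFromTorsion`) and its strengthening at the real place (`RealComponentsOfDoubleCovers`).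

The definitions `OnCover`, `image`, `ClosureReal` are those of `OpenAwayFromTorsion`, the definitions
`SmoothPoints`, `Component` those of `RealComponentsOfDoubleCovers`.
-/

set_option autoImplicit false
set_option linter.unusedSectionVars false
set_option linter.unusedVariables false

namespace Pool.Agent.Results.MP_ed3816_nt.MarkedPoints

open MvPolynomial Pool.Agent.Results.MP_ed3816_nt.OpenAwayFromTorsion
  Pool.Agent.Results.MP_ed3816_nt.RealComponentsOfDoubleCovers

/-- The polynomial `w² + g(x) + ∑_{a ∈ A} c_a x^a`. -/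
noncomputable def member {n : ℕ} (g : MvPolynomial (Fin n) ℤ) (A : Finset (Fin n →₀ ℕ)) (w : ℤ)
    (c : A → ℤ) : MvPolynomial (Fin n) ℤ :=
  C (w ^ 2) + g + ∑ a : A, monomial a.1 (c a)

/-- The families `c = (c_a)` with `|c_a| ≤ H`. -/
noncomputable def Box {n : ℕ} (A : Finset (Fin n →₀ ℕ)) (H : ℕ) : Finset (A → ℤ) :=
  Fintype.piFinset fun _ => Finset.Icc (-(H : ℤ)) H

/-- The polynomial `g` has the value `0` at the origin and degree at most four in each variable;
`A` is a set of nonzero exponents which are at most four, and contains the exponents of `x_j³` and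
`x_j⁴` for all `j`. -/
def Admissible {n : ℕ} (g : MvPolynomial (Fin n) ℤ) (A : Finset (Fin n →₀ ℕ)) : Prop :=
  (g.coeff 0 = 0 ∧ ∀ j, g.degreeOf j ≤ 4) ∧ (∀ a ∈ A, a ≠ 0 ∧ ∀ j, a j ≤ 4) ∧
    ∀ j, Finsupp.single j 3 ∈ A ∧ Finsupp.single j 4 ∈ A

/-- The point `(0, w)`. -/
def point (L : Type) [Field L] (n : ℕ) (w : ℤ) : (Fin n → L) × L := (fun _ => 0, (w : L))

/-- For all fields `L` of characteristic zero (for example number fields), embeddings of `L` into `ℝ`
and finite nonempty sets of embeddings of `L` into fields `ℚ_{p_v}`, the primes `p_v` different: the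
closure of `X(L)` in the product of `X(ℝ)` and the `X(ℚ_{p_v})` contains the product of the component
of the point `(0, w)` of the smooth real points and of a neighbourhood of the point `(0, w)` in the
product of the `X(ℚ_{p_v})`. -/
def DenseNear {n : ℕ} (F : MvPolynomial (Fin n) ℤ) (w : ℤ) : Prop :=
  ∀ (L : Type) [Field L] [CharZero L] (ι : Type) [Finite ι] [Nonempty ι] (p : ι → ℕ)
    [∀ v, Fact (p v).Prime], Function.Injective p → ∀ (σ : ∀ v, L →+* ℚ_[p v]) (τ : L →+* ℝ),
      ∃ U ∈ nhds (fun v => image (σ v) (point L n w)),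
        ∀ x' ∈ Component (map (Int.castRingHom ℝ) F) (image τ (point L n w)), ∀ y' ∈ U,
          (∀ v, OnCover (map (Int.castRingHom ℚ_[p v]) F) (y' v)) →
            (x', y') ∈ ClosureReal (map (Int.castRingHom L) F) σ τ

section aux

variable {n : ℕ} {g : MvPolynomial (Fin n) ℤ} {A : Finset (Fin n →₀ ℕ)}

lemma coeff_member (hA : Admissible g A) (w : ℤ) (c : A → ℤ) (j : Fin n) {k : ℕ} (hk : k ≠ 0) :
    (C (w ^ 2) + g + ∑ a : A, monomial a.1 (c a)).coeff (Finsupp.single j k) =
      g.coeff (Finsupp.single j k) + ∑ a : A, if a.1 = Finsupp.single j k then c a else 0 := by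
  classical
  have h0 : (0 : Fin n →₀ ℕ) ≠ Finsupp.single j k := by
    intro h
    apply hk
    have := DFunLike.congr_fun h j
    simp at this
    exact this.symm
  rw [coeff_add, coeff_add, coeff_C, if_neg h0, zero_add, coeff_sum]
  simp only [coeff_monomial]

lemma onCover_member (hA : Admissible g A) (w : ℤ) (c : A → ℤ) (L : Type) [Field L] :
    OnCover (map (Int.castRingHom L) (member g A w c)) (point L n w) := by
  classical
  have h1 : constantCoeff (C (w ^ 2) + g + ∑ a : A, monomial a.1 (c a)) = w ^ 2 := by
    rw [map_add, map_add, constantCoeff_C, map_sum]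
    have h2 : constantCoeff g = 0 := hA.1.1
    have h3 : ∀ a : A, constantCoeff (monomial a.1 (c a)) = 0 := by
      intro a
      rw [constantCoeff_monomial, if_neg (hA.2.1 a.1 a.2).1]
    rw [h2, Finset.sum_eq_zero fun a _ => h3 a]
    ring
  rw [OnCover, member, point]
  simp only
  rw [MvPolynomial.eval_zero', constantCoeff_map, h1]
  simp

lemma degree_member (hA : Admissible g A) (w : ℤ) (c : A → ℤ) (L : Type) [Field L] (j : Fin n) :
    (map (Int.castRingHom L) (member g A w c)).degreeOf j ≤ 4 := by
  classical
  have h1 : (C (w ^ 2) + g + ∑ a : A, monomial a.1 (c a)).degreeOf j ≤ 4 := by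
    refine (degreeOf_add_le _ _ _).trans (max_le ((degreeOf_add_le _ _ _).trans (max_le ?_ ?_)) ?_)
    · rw [degreeOf_C]; omega
    · exact hA.1.2 j
    · refine (degreeOf_sum_le _ _ _).trans (Finset.sup_le fun a _ => ?_)
      by_cases hc : c a = 0
      · rw [hc, monomial_zero, degreeOf_zero]; omega
      · rw [degreeOf_monomial_eq _ _ hc]
        exact (hA.2.1 a.1 a.2).2 j
  rw [degreeOf_le_iff] at h1 ⊢
  intro m hm
  refine h1 m ?_
  rw [mem_support_iff, member, coeff_map] at hm
  rw [mem_support_iff]
  intro h0
  apply hm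
  rw [h0, map_zero]

lemma map_int {L F : Type} [Field L] [Field F] (φ : L →+* F) (P : MvPolynomial (Fin n) ℤ) :
    map φ (map (Int.castRingHom L) P) = map (Int.castRingHom F) P := by
  have e : φ.comp (Int.castRingHom L) = Int.castRingHom F := RingHom.ext_int _ _
  rw [map_map, e]

/-- infinite order in all directions suffices -/
lemma dense_of (hA : Admissible g A) {w : ℤ} (hw : w ≠ 0) (c : A → ℤ)
    (h : ∀ j, Pool.Agent.Y720.MZ.IOt (Pool.Agent.Y720.MZ.th (map (Int.castRingHom ℚ)
      (member g A w c)) (Pi.single j 1) (fun _ => 0) (w : ℚ))) : DenseNear (member g A w c) w := by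
  intro L _ _ ι _ _ p _ hinj σ τ
  set f := map (Int.castRingHom L) (member g A w c) with hf
  have hP : OnCover f (point L n w) := onCover_member hA w c L
  have hwL : (point L n w).2 ≠ 0 := by
    change (w : L) ≠ 0
    exact_mod_cast hw
  have hj : ∀ j, Pool.Agent.Y720.MZ.IOt (Pool.Agent.Y720.MZ.th f (Pi.single j 1)
      (point L n w).1 (point L n w).2) := fun j =>
    Pool.Agent.L5helper6.KM.io_field (member g A w c) w j (h j) L
  have hT : (image τ (point L n w), fun v => image (σ v) (point L n w)) ∈ ClosureReal f σ τ :=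
    subset_closure ⟨point L n w, hP, rfl⟩
  have hwτ : (image τ (point L n w)).2 ≠ 0 := (map_ne_zero τ).2 hwL
  have hwσ : ∀ v, (image (σ v) (point L n w)).2 ≠ 0 := fun v => (map_ne_zero (σ v)).2 hwL
  have hs : image τ (point L n w) ∈ SmoothPoints (map τ f) :=
    ⟨onCover_image τ hP, Or.inl hwτ⟩
  have hM : ∀ v j, Moves (map (σ v) f) (image (σ v) (point L n w)) j := fun v j =>
    Pool.Agent.L5helper6.KM.moves_map hP (σ v) (hj j)
  have hMτ : ∀ j, Moves (map τ f) (image τ (point L n w)) j := fun j =>
    Pool.Agent.L5helper6.KM.moves_map hP τ (hj j)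
  have hres := (RealComponentsOfDoubleCovers.result L n f (degree_member hA w c L) ι p σ τ
    (image τ (point L n w)) (fun v => image (σ v) (point L n w)) hT hs
    (fun j => ⟨Classical.arbitrary ι, hwσ _, hM _ j⟩)).2 inferInstance hinj hwσ
    (image τ (point L n w)) (mem_connectedComponentIn hs) hwτ
    (fun j => ⟨j, ⟨(hMτ j).1, Or.inl rfl⟩, fun v => ⟨hM v j, Or.inl rfl⟩⟩)
  rw [hf, map_int] at hres
  simp only [map_int] at hres
  exact hres

open Classical in
lemma bad_le (hA : Admissible g A) {w : ℤ} (hw : w ≠ 0) {η : ℝ} {H : ℕ}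
    (hF : Pool.Agent.L5helper6.KM.FewPairs w η H) :
    ((Box A H).filter fun c => ¬ DenseNear (member g A w c) w).card ≤
      (n * η) * ((Box A H).card : ℝ) := by
  have key : ∀ j : Fin n, (((Box A H).filter fun c : A → ℤ =>
      ¬ Pool.Agent.Y720.MZ.IOt (Pool.Agent.L5helper6.KM.four w
        ((C (w ^ 2) + g + ∑ a : A, monomial a.1 (c a)).coeff (Finsupp.single j 1))
        ((C (w ^ 2) + g + ∑ a : A, monomial a.1 (c a)).coeff (Finsupp.single j 2))
        ((C (w ^ 2) + g + ∑ a : A, monomial a.1 (c a)).coeff (Finsupp.single j 3))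
        ((C (w ^ 2) + g + ∑ a : A, monomial a.1 (c a)).coeff (Finsupp.single j 4)))).card : ℝ) ≤
      η * ((Box A H).card : ℝ) := by
    intro j
    have hne : ∀ k l : ℕ, k ≠ l → (Finsupp.single j k : Fin n →₀ ℕ) ≠ Finsupp.single j l := by
      intro k l hkl h
      apply hkl
      have := DFunLike.congr_fun h j
      simpa using this
    set a₃ : A := ⟨Finsupp.single j 3, (hA.2.2 j).1⟩ with ha₃
    set a₄ : A := ⟨Finsupp.single j 4, (hA.2.2 j).2⟩ with ha₄
    have hab : a₃ ≠ a₄ := fun h => hne 3 4 (by norm_num) (congrArg Subtype.val h)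
    have havg := Pool.Agent.L5helper6.KM.avg (Finset.Icc (-(H : ℤ)) H) hab (fun c : A → ℤ =>
      ¬ Pool.Agent.Y720.MZ.IOt (Pool.Agent.L5helper6.KM.four w
        ((C (w ^ 2) + g + ∑ a : A, monomial a.1 (c a)).coeff (Finsupp.single j 1))
        ((C (w ^ 2) + g + ∑ a : A, monomial a.1 (c a)).coeff (Finsupp.single j 2))
        ((C (w ^ 2) + g + ∑ a : A, monomial a.1 (c a)).coeff (Finsupp.single j 3))
        ((C (w ^ 2) + g + ∑ a : A, monomial a.1 (c a)).coeff (Finsupp.single j 4))))
      (η * (2 * (H : ℝ) + 1) ^ 2) (by
        intro c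
        refine le_trans (le_of_eq ?_) (hF (g.coeff (Finsupp.single j 1) +
          ∑ a : A, if a.1 = Finsupp.single j 1 then c a else 0) (g.coeff (Finsupp.single j 2) +
          ∑ a : A, if a.1 = Finsupp.single j 2 then c a else 0) (g.coeff (Finsupp.single j 3))
          (g.coeff (Finsupp.single j 4)))
        congr 2
        refine Finset.filter_congr fun x _ => ?_
        set c' := Function.update (Function.update c a₃ x.1) a₄ x.2 with hc'
        have e1 : ∀ k, k ≠ 3 → k ≠ 4 → (∑ a : A, if a.1 = Finsupp.single j k then c' a else 0) =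
            ∑ a : A, if a.1 = Finsupp.single j k then c a else 0 := by
          intro k h3 h4
          refine Finset.sum_congr rfl fun a _ => ?_
          by_cases ha : a.1 = Finsupp.single j k
          · rw [if_pos ha, if_pos ha, hc', Function.update_of_ne, Function.update_of_ne]
            · rintro rfl
              exact hne 3 k (Ne.symm h3) ha
            · rintro rfl
              exact hne 4 k (Ne.symm h4) ha
          · rw [if_neg ha, if_neg ha]
        have e3 : (∑ a : A, if a.1 = Finsupp.single j 3 then c' a else 0) = x.1 := by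
          rw [Finset.sum_eq_single a₃]
          · rw [if_pos rfl, hc', Function.update_of_ne hab, Function.update_self]
          · intro a _ ha
            rw [if_neg fun h => ha (Subtype.ext h)]
          · intro h; exact absurd (Finset.mem_univ _) h
        have e4 : (∑ a : A, if a.1 = Finsupp.single j 4 then c' a else 0) = x.2 := by
          rw [Finset.sum_eq_single a₄]
          · rw [if_pos rfl, hc', Function.update_self]
          · intro a _ ha
            rw [if_neg fun h => ha (Subtype.ext h)]
          · intro h; exact absurd (Finset.mem_univ _) h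
        rw [coeff_member hA w c' j (by norm_num), coeff_member hA w c' j (by norm_num),
          coeff_member hA w c' j (by norm_num), coeff_member hA w c' j (by norm_num),
          e1 1 (by norm_num) (by norm_num), e1 2 (by norm_num) (by norm_num), e3, e4])
    have hI : ((Finset.Icc (-(H : ℤ)) H).card : ℝ) = 2 * (H : ℝ) + 1 := by
      rw [Int.card_Icc]
      have : ((H : ℤ) + 1 - -(H : ℤ)).toNat = 2 * H + 1 := by omega
      rw [this]; push_cast; ring
    rw [hI] at havg
    have hpos : (0 : ℝ) < (2 * (H : ℝ) + 1) ^ 2 := by positivity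
    have h2 : η * (2 * (H : ℝ) + 1) ^ 2 * ((Box A H).card : ℝ) =
        (η * ((Box A H).card : ℝ)) * (2 * (H : ℝ) + 1) ^ 2 := by ring
    refine le_of_mul_le_mul_right ?_ hpos
    rw [← h2]
    exact havg
  have hsub : (Box A H).filter (fun c => ¬ DenseNear (member g A w c) w) ⊆
      Finset.univ.biUnion fun j : Fin n => (Box A H).filter fun c : A → ℤ =>
      ¬ Pool.Agent.Y720.MZ.IOt (Pool.Agent.L5helper6.KM.four w
        ((C (w ^ 2) + g + ∑ a : A, monomial a.1 (c a)).coeff (Finsupp.single j 1))
        ((C (w ^ 2) + g + ∑ a : A, monomial a.1 (c a)).coeff (Finsupp.single j 2))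
        ((C (w ^ 2) + g + ∑ a : A, monomial a.1 (c a)).coeff (Finsupp.single j 3))
        ((C (w ^ 2) + g + ∑ a : A, monomial a.1 (c a)).coeff (Finsupp.single j 4))) := by
    intro c hc
    rw [Finset.mem_filter] at hc
    rw [Finset.mem_biUnion]
    by_contra hcon
    push Not at hcon
    refine hc.2 (dense_of hA hw c fun j => ?_)
    have h1 := hcon j (Finset.mem_univ _)
    rw [Finset.mem_filter, not_and, not_not] at h1
    have h2 := h1 hc.1
    rw [← Pool.Agent.L5helper6.KM.th_zero] at h2
    exact h2
  have h1 := (Finset.card_le_card hsub).trans Finset.card_biUnion_le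
  have h2 : (((Box A H).filter fun c => ¬ DenseNear (member g A w c) w).card : ℝ) ≤
      ∑ j : Fin n, (((Box A H).filter fun c : A → ℤ =>
      ¬ Pool.Agent.Y720.MZ.IOt (Pool.Agent.L5helper6.KM.four w
        ((C (w ^ 2) + g + ∑ a : A, monomial a.1 (c a)).coeff (Finsupp.single j 1))
        ((C (w ^ 2) + g + ∑ a : A, monomial a.1 (c a)).coeff (Finsupp.single j 2))
        ((C (w ^ 2) + g + ∑ a : A, monomial a.1 (c a)).coeff (Finsupp.single j 3))
        ((C (w ^ 2) + g + ∑ a : A, monomial a.1 (c a)).coeff (Finsupp.single j 4)))).card : ℝ) := by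
    rw [← Nat.cast_sum]
    exact Nat.cast_le.2 h1
  refine h2.trans ((Finset.sum_le_sum fun j _ => key j).trans (le_of_eq ?_))
  rw [Finset.sum_const, Finset.card_univ, Fintype.card_fin, nsmul_eq_mul]
  ring

end aux

open Classical in
/-- **Weak approximation near a marked rational point, for 100% of the double covers.** -/
theorem result (n : ℕ) (η : ℝ) (hη : 0 < η) :
    -- (1) for each `w ≠ 0`
    (∀ w : ℤ, w ≠ 0 → ∃ H₀ : ℕ, ∀ H : ℕ, H₀ ≤ H →
      ∀ (g : MvPolynomial (Fin n) ℤ) (A : Finset (Fin n →₀ ℕ)), Admissible g A →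
        (((Box A H).filter fun c => ¬ DenseNear (member g A w c) w).card : ℝ) ≤
          η * (Box A H).card) ∧
    -- (2) on average over `1 ≤ w ≤ W`
    (∃ H₀ : ℕ, ∀ H : ℕ, H₀ ≤ H → ∀ (W : ℕ) (g : MvPolynomial (Fin n) ℤ)
      (A : Finset (Fin n →₀ ℕ)), Admissible g A →
        (((Finset.Icc (1 : ℤ) W ×ˢ Box A H).filter fun z =>
          ¬ DenseNear (member g A z.1 z.2) z.1).card : ℝ) ≤
            η * (Finset.Icc (1 : ℤ) W ×ˢ Box A H).card) := by
  set θ : ℝ := η / (2 * (n + 1)) with hθ
  have hθ0 : 0 < θ := by positivity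
  have hnθ : (n : ℝ) * θ ≤ η / 2 := by
    rw [hθ]
    have h1 : (n : ℝ) * (η / (2 * (n + 1))) = η / 2 * (n / (n + 1)) := by field_simp
    have h2 : (n : ℝ) / (n + 1) ≤ 1 := by
      rw [div_le_one (by positivity)]; linarith
    rw [h1]
    nlinarith
  have hθη : θ ≤ η / 2 := by
    rw [hθ]
    apply div_le_div_of_nonneg_left hη.le (by norm_num)
    have : (0 : ℝ) ≤ n := Nat.cast_nonneg n
    linarith
  refine ⟨fun w hw => ?_, ?_⟩
  · obtain ⟨H₀, h⟩ := Pool.Agent.L5helper6.KM.few_eps hw hθ0
    refine ⟨H₀, fun H hH g A hA => (bad_le hA hw (h H hH)).trans ?_⟩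
    have : (0 : ℝ) ≤ (Box A H).card := Nat.cast_nonneg _
    nlinarith
  · obtain ⟨H₀, h⟩ := Pool.Agent.L5helper6.KM.few_eps_avg hθ0
    refine ⟨H₀, fun H hH W g A hA => ?_⟩
    have hcW : ((Finset.Icc (1 : ℤ) W).card : ℝ) = W := by
      rw [Int.card_Icc]; simp
    have hB0 : (0 : ℝ) ≤ (Box A H).card := Nat.cast_nonneg _
    have hW0 : (0 : ℝ) ≤ W := Nat.cast_nonneg _
    have e1 : (((Finset.Icc (1 : ℤ) W ×ˢ Box A H).filter fun z =>
          ¬ DenseNear (member g A z.1 z.2) z.1).card : ℝ) =
        ∑ w ∈ Finset.Icc (1 : ℤ) W,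
          (((Box A H).filter fun c => ¬ DenseNear (member g A w c) w).card : ℝ) := by
      rw [Finset.card_eq_sum_card_fiberwise (f := Prod.fst) (t := Finset.Icc (1 : ℤ) W)]
      · push_cast
        refine Finset.sum_congr rfl fun w hw => ?_
        congr 1
        refine Finset.card_nbij' Prod.snd (fun c => (w, c)) ?_ ?_ ?_ ?_
        · rintro ⟨w', c⟩ hz
          simp only [Finset.coe_filter, Finset.mem_filter, Finset.mem_product,
            Set.mem_setOf_eq] at hz ⊢
          obtain ⟨⟨⟨h1, h2⟩, h3⟩, rfl⟩ := hz
          exact ⟨h2, h3⟩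
        · intro c hc
          simp only [Finset.coe_filter, Finset.mem_filter, Finset.mem_product,
            Set.mem_setOf_eq] at hc ⊢
          exact ⟨⟨⟨hw, hc.1⟩, hc.2⟩, trivial⟩
        · rintro ⟨w', c⟩ hz
          simp only [Finset.coe_filter, Finset.mem_filter, Finset.mem_product,
            Set.mem_setOf_eq] at hz ⊢
          rw [hz.2]
        · intro c _; rfl
      · intro z hz
        simp only [Finset.coe_filter, Finset.mem_product, Set.mem_setOf_eq] at hz
        exact hz.1.1
    rw [e1]
    have e2 : ∀ w ∈ Finset.Icc (1 : ℤ) W,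
        (((Box A H).filter fun c => ¬ DenseNear (member g A w c) w).card : ℝ) ≤
        η / 2 * (Box A H).card + (if ¬ ∀ H : ℕ, H₀ ≤ H →
          Pool.Agent.L5helper6.KM.FewPairs w θ H then ((Box A H).card : ℝ) else 0) := by
      intro w hw
      have hw0 : w ≠ 0 := by
        have := (Finset.mem_Icc.1 hw).1
        omega
      by_cases hF : ∀ H : ℕ, H₀ ≤ H → Pool.Agent.L5helper6.KM.FewPairs w θ H
      · rw [if_neg (not_not.2 hF), add_zero]
        refine (bad_le hA hw0 (hF H hH)).trans ?_
        gcongr
      · rw [if_pos hF]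
        have h1 : (((Box A H).filter fun c => ¬ DenseNear (member g A w c) w).card : ℝ) ≤
            (Box A H).card := by exact_mod_cast Finset.card_filter_le _ _
        nlinarith
    calc _ ≤ ∑ w ∈ Finset.Icc (1 : ℤ) W, (η / 2 * ((Box A H).card : ℝ) + (if ¬ ∀ H : ℕ, H₀ ≤ H →
          Pool.Agent.L5helper6.KM.FewPairs w θ H then ((Box A H).card : ℝ) else 0)) :=
          Finset.sum_le_sum e2
      _ = W * (η / 2 * ((Box A H).card : ℝ)) + ((Finset.Icc (1 : ℤ) W).filter fun w =>
            ¬ ∀ H : ℕ, H₀ ≤ H → Pool.Agent.L5helper6.KM.FewPairs w θ H).card *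
              ((Box A H).card : ℝ) := by
          rw [Finset.sum_add_distrib, Finset.sum_const, nsmul_eq_mul, hcW, ← Finset.sum_filter,
            Finset.sum_const, nsmul_eq_mul]
      _ ≤ W * (η / 2 * ((Box A H).card : ℝ)) + (θ * W) * ((Box A H).card : ℝ) := by
          have := h W
          gcongr
      _ ≤ W * (η / 2 * ((Box A H).card : ℝ)) + (η / 2 * W) * ((Box A H).card : ℝ) := by gcongr
      _ = η * (Finset.Icc (1 : ℤ) W ×ˢ Box A H).card := by
          rw [Finset.card_product]
          push_cast
          rw [hcW]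
          ring

end Pool.Agent.Results.MP_ed3816_nt.MarkedPoints
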