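import Pool.Agent.L5helper15.KU.Ma

/-!
# K3 surfaces: potential weak approximation

`K` is a finitely generated field of characteristic zero, for example a number field, and
`X : w² = f(x₁, …, x_n)`, where `f` has degree at most `4` in each variable and is absolutely
irreducible, and for each direction some curve `w² = q(t)` in the direction of the coordinate is
smooth of genus one. For `n = 2` these are affine open subsets of the double covers of `ℙ¹ × ℙ¹`
branched along an irreducible curve of bidegree `(4, 4)`, K3 surfaces if the curve is smooth.

The question asks for all finite extensions `L` of `K` whether the obstruction of Brauer and Manin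
describes the closure of `X(L)`. We consider a real place of `K` and a finite set of `p`-adic places of
degree one over different primes, and extensions `L` in which all these places have an extension of
degree one (we choose one). There is no assumption on the existence of rational points.

For a local field `F` let `X(F)⁰` be the (open) set of the `F`-points `(x, w)` with `w ≠ 0` for which the
`n` curves in the directions of the coordinates are smooth of genus one and the differences of `(x, w)`
and `(x, -w)` have infinite order in the Jacobians.

(1) For each smooth real point `x` and all points `y_v` of `X(K_v)⁰` there is a quadratic extension `L`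
such that the closure of `X(L)` contains `C × U`, `C` the component of `x` of the smooth real points and
`U` a neighbourhood of `y = (y_v)` in the product of the `X(K_v)`.

(2) For any finite set of components of the smooth real points and each compact subset `Z` of the product
of the `X(K_v)⁰` there is an extension `L` of degree `2^s` such that the closure of `X(L)` contains
`C × Z` for all these components `C`: weak approximation holds on them over `L`.

The definitions `OnCover`, `image`, `ClosureReal`, `line`, `GenusOne`, `Moves` are those of
`OpenAwayFromTorsion`.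
-/

set_option autoImplicit false
set_option linter.unusedSectionVars false
set_option linter.unusedVariables false

namespace Pool.Agent.Results.MP_ed3816_nt.PotentialWeakApproximation

open MvPolynomial Pool.Agent.Results.MP_ed3816_nt.OpenAwayFromTorsion

/-- The set `X(F)⁰` of the `F`-points `P = (x, w)` of `w² = g(x)` with `w ≠ 0` such that for all
directions the curve through `P` is smooth of genus one and the difference of `(x, w)` and `(x, -w)`
has infinite order in its Jacobian. -/
def FreePoints {F : Type} [Field F] {m : ℕ} (g : MvPolynomial (Fin m) F) :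
    Set ((Fin m → F) × F) :=
  {P | OnCover g P ∧ P.2 ≠ 0 ∧ ∀ j, Moves g P j}

/-- The smooth points of the double cover `w² = g(x)`. -/
def SmoothPoints {F : Type} [Field F] {m : ℕ} (g : MvPolynomial (Fin m) F) :
    Set ((Fin m → F) × F) :=
  {T | OnCover g T ∧ (T.2 ≠ 0 ∨ ∃ j, eval T.1 (pderiv j g) ≠ 0)}

/-- The component of `x` of the smooth real points. -/
def Component {m : ℕ} (g : MvPolynomial (Fin m) ℝ) (x : (Fin m → ℝ) × ℝ) :
    Set ((Fin m → ℝ) × ℝ) :=
  connectedComponentIn (SmoothPoints g) x

/-- **Potential weak approximation.** -/
theorem result (K : Type) [Field K] [CharZero K]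
    -- `K` is finitely generated
    (hK : ∃ S : Finset K, IntermediateField.adjoin ℚ (S : Set K) = ⊤)
    (n : ℕ) (hn : 1 ≤ n) (f : MvPolynomial (Fin n) K)
    -- the degree in each variable is at most four
    (hd : ∀ j, f.degreeOf j ≤ 4)
    -- the branch divisor is absolutely irreducible
    (hirr : Irreducible (map (algebraMap K (AlgebraicClosure K)) f))
    -- for each direction some curve is smooth of genus one
    (hg : ∀ j, ∃ z : Fin n → K, GenusOne (line f z j))
    -- a real place and `p`-adic places of degree one over different primes
    (τ : K →+* ℝ) (ι : Type) [Finite ι] (p : ι → ℕ) [∀ v, Fact (p v).Prime]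
    (hinj : Function.Injective p) (σ : ∀ v, K →+* ℚ_[p v]) :
    -- (1) one component and one open set: a quadratic extension suffices
    (Nonempty ι → ∀ x ∈ SmoothPoints (map τ f), ∀ y : ∀ v, (Fin n → ℚ_[p v]) × ℚ_[p v],
      (∀ v, y v ∈ FreePoints (map (σ v) f)) →
      ∃ (L : Type) (_ : Field L) (_ : Algebra K L), Module.finrank K L = 2 ∧
        ∃ (σ' : ∀ v, L →+* ℚ_[p v]) (τ' : L →+* ℝ),
          (∀ v, (σ' v).comp (algebraMap K L) = σ v) ∧ τ'.comp (algebraMap K L) = τ ∧
          ∃ U ∈ nhds y, ∀ x' ∈ Component (map τ f) x, ∀ y' ∈ U,
            (∀ v, OnCover (map (σ v) f) (y' v)) →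
            (x', y') ∈ ClosureReal (map (algebraMap K L) f) σ' τ') ∧
    -- (2) finitely many components and a compact set of `p`-adic points
    (∀ A : Finset ((Fin n → ℝ) × ℝ), (∀ x ∈ A, x ∈ SmoothPoints (map τ f)) →
      ∀ Z : Set (∀ v, (Fin n → ℚ_[p v]) × ℚ_[p v]), IsCompact Z →
      (∀ y ∈ Z, ∀ v, y v ∈ FreePoints (map (σ v) f)) →
      ∃ (L : Type) (_ : Field L) (_ : Algebra K L), (∃ s : ℕ, Module.finrank K L = 2 ^ s) ∧
        ∃ (σ' : ∀ v, L →+* ℚ_[p v]) (τ' : L →+* ℝ),
          (∀ v, (σ' v).comp (algebraMap K L) = σ v) ∧ τ'.comp (algebraMap K L) = τ ∧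
          ∀ x ∈ A, ∀ x' ∈ Component (map τ f) x, ∀ y ∈ Z,
            (x', y) ∈ ClosureReal (map (algebraMap K L) f) σ' τ') := by
  have hirr' : Pool.Agent.L5helper15.KU.AbsIrr f :=
    ⟨AlgebraicClosure K, inferInstance, inferInstance, algebraMap K (AlgebraicClosure K), hirr⟩
  have hg' : ∀ j, ∃ z, Pool.Agent.Y720.MZ.Tq f (Pi.single j 1) z ≠ 0 := by
    intro j
    obtain ⟨z, hz⟩ := hg j
    exact ⟨z, genusOne_iff.1 hz⟩
  constructor
  · intro hne x hx y hy
    obtain ⟨L, i1, i2, i3, h⟩ := Pool.Agent.L5helper15.KU.main3 hK hd hirr' hg' ⟨0, hn⟩ hinj σ τ hx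
      (y := y) hy
    exact ⟨L, i1, i3, h⟩
  · intro A hA Z hZ hZX
    obtain ⟨L, i1, i2, i3, h⟩ := Pool.Agent.L5helper15.KU.main2 hK hd hirr' hg' ⟨0, hn⟩ hinj σ τ A hA
      hZ hZX
    exact ⟨L, i1, i3, h⟩

end Pool.Agent.Results.MP_ed3816_nt.PotentialWeakApproximation
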